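import Pool.Agent.H68.L.R_seed8.R413.SQ.Stm
import Pool.Agent.H68.L.R_seed8.Y710.CQ.BIL

/-!
# SQ-BIL: bilinear sums of quadratic symbols (after helper710)
-/

set_option autoImplicit false
set_option linter.all false

open Finset

namespace Pool.Agent.R413.SQ.BIL

open Pool.Agent.R413.SQ
open Pool.Agent.Y703.CQ (nr sg prs HB S_EQ ext GdA S_SYM S_C2 S_LA c2 S_MER S_CHE)
open Pool.Agent.Y710.CQ (xi bil sg_xi)

theorem t_BIL : S_BIL := by
  refine ⟨3 * 6 ^ 6, by norm_num, ?_⟩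
  intro P Q A B z c d hP hQ hdis hz hzA hzB hc hd
  have hne : ∀ p ∈ P, ∀ q ∈ Q, p ≠ q := fun p hp q hq he =>
    (Finset.disjoint_left.1 hdis) hp (he ▸ hq)
  have hzr : (1 : ℝ) ≤ z := by exact_mod_cast hz
  have hP' : ∀ p ∈ P, p.Prime ∧ p ≠ 2 ∧ p ≤ A := by
    intro p hp
    obtain ⟨h1, h2, h3⟩ := hP p hp
    exact ⟨h1, by omega, h3⟩
  rcases le_total B A with hBA | hAB
  · have e1 : ∑ p ∈ P, ∑ q ∈ Q, c p * d q * sg (nr p q) =
        ∑ q ∈ Q, ∑ p ∈ P, d q * c p * xi q p := by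
      rw [sum_comm]
      refine sum_congr rfl fun q hq => sum_congr rfl fun p hp => ?_
      obtain ⟨p1, p2, -⟩ := hP p hp
      obtain ⟨q1, q2, -⟩ := hQ q hq
      rw [sg_xi p1 q1 (hne p hp q hq), mul_comm (c p)]
      congr 1
      unfold xi
      rw [jacobiSym.quadratic_reciprocity_one_mod_four (a := p) (b := q) (by omega)
        (q1.odd_of_ne_two q2)]
    rw [e1]
    have h1 := bil (hz.trans hzB) hBA hQ hP' d c hd hc
    have h2 : (z : ℝ) ≤ B := by exact_mod_cast hzB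
    calc ‖∑ q ∈ Q, ∑ p ∈ P, d q * c p * xi q p‖ ^ 12 * z ≤
        (3 * 6 ^ 6 * ((B : ℝ) ^ 11 * (A : ℝ) ^ 12)) * B := by
          apply mul_le_mul h1 h2 (by positivity) (by positivity)
      _ = 3 * 6 ^ 6 * ((A : ℝ) * B) ^ 12 := by ring
  · have e1 : ∑ p ∈ P, ∑ q ∈ Q, c p * d q * sg (nr p q) =
        ∑ p ∈ P, ∑ q ∈ Q, c p * d q * xi p q := by
      refine sum_congr rfl fun p hp => sum_congr rfl fun q hq => ?_
      rw [sg_xi (hP p hp).1 (hQ q hq).1 (hne p hp q hq)]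
    rw [e1]
    have h1 := bil (hz.trans hzA) hAB hP' hQ c d hc hd
    have h2 : (z : ℝ) ≤ A := by exact_mod_cast hzA
    calc ‖∑ p ∈ P, ∑ q ∈ Q, c p * d q * xi p q‖ ^ 12 * z ≤
        (3 * 6 ^ 6 * ((A : ℝ) ^ 11 * (B : ℝ) ^ 12)) * A := by
          apply mul_le_mul h1 h2 (by positivity) (by positivity)
      _ = 3 * 6 ^ 6 * ((A : ℝ) * B) ^ 12 := by ring

end Pool.Agent.R413.SQ.BIL
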