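import Mathlib
import Pool.Agent.H68.L.R_seed8.Y703.CQ.Stm

/-!
# The exact proportion for the full class of the primes `1` modulo `4` (after project CQ)

`D` runs over the products of different primes `≡ 1` modulo `4`, which are split or inert in
`ℚ(√-7)`. The symmetric matrix over `𝔽₂` indexed by the split primes of `D` (the Laplacian of the
quadratic symbols, plus the symbols of the inert primes and an arbitrary function on the diagonal)
is nonsingular for exactly the proportion `∏_{i ≥ 0} (1 - 2^{-(2i+1)}) = 0.419...`.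
Statements of the parts, an adaptation of project CQ (helper703) to another class of primes; the
parameters `I`, `K` have no meaning here.
-/

set_option autoImplicit false
set_option linter.unusedVariables false

open scoped Classical

namespace Pool.Agent.R413.SQ

open Finset
open Pool.Agent.Y703.CX (sm la jj XX eL zz kk S_SIE)
open Pool.Agent.Y703.CQ (nr sg prs HB S_EQ ext GdA S_SYM S_C2 S_LA c2 S_MER S_CHE)

/-- the label of a prime: `1` if it splits in `ℚ(√-7)` -/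
def mk (p : ℕ) : ℕ := if p % 7 = 1 ∨ p % 7 = 2 ∨ p % 7 = 4 then 1 else 0

/-- the split primes -/
def Sp (p : ℕ) : Prop := p.Prime ∧ mk p = 1 ∧ p % 4 = 1

/-- the inert primes -/
def In (I : Finset ℕ) (r : ℕ) : Prop := r.Prime ∧ mk r ≠ 1 ∧ r % 4 = 1

/-- the parameters -/
def Ok (I K : Finset ℕ) : Prop := True

/-- a function set to zero on the inert primes -/
def cu (x : ℕ → ZMod 2) (q : ℕ) : ZMod 2 := if mk q = 1 then x q else 0

/-- the kernel of the matrix -/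
def Sol (f : ℕ → ZMod 2) (S : Finset ℕ) (x : ℕ → ZMod 2) : Prop :=
  ∀ p ∈ S, mk p = 1 → ∑ q ∈ S, nr p q * (cu x q + x p) + f p * x p = 0

/-- the good sets: the matrix is nonsingular -/
def Gd (f : ℕ → ZMod 2) (S : Finset ℕ) : Prop := ∀ x, Sol f S x → ∀ p ∈ S, mk p = 1 → x p = 0

/-- the class of the sets of primes -/
def Cl (I K S : Finset ℕ) : Prop := ∀ p ∈ S, Sp p ∨ In I p

/-- the sets of the class with product at most `X` -/
noncomputable def SS (I K : Finset ℕ) (X : ℕ) : Finset (Finset ℕ) :=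
  (range (X + 1)).powerset.filter fun S => Cl I K S ∧ ∏ p ∈ S, p ≤ X

/-- the density of the primes of the class -/
noncomputable def dl (I : Finset ℕ) : ℝ := 1 / 2

/-- FINAL: the proportion of the good sets -/
def S_DQ : Prop := ∀ (I K : Finset ℕ) (f : ℕ → ZMod 2), Ok I K → Filter.Tendsto
  (fun X : ℕ => (((SS I K X).filter (Gd f)).card : ℝ) / ((SS I K X).card : ℝ)) Filter.atTop (nhds c2)

/-- FINAL, in terms of the numbers `D`. -/
def S_DEN : Prop := ∀ (I K : Finset ℕ) (f : ℕ → ZMod 2), Ok I K → Filter.Tendsto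
  (fun X : ℕ => (((Icc 1 X).filter fun D => Squarefree D ∧ Cl I K D.primeFactors ∧
      Gd f D.primeFactors).card : ℝ) /
    (((Icc 1 X).filter fun D => Squarefree D ∧ Cl I K D.primeFactors).card : ℝ))
  Filter.atTop (nhds c2)

/-- SQ-NS: the translation. -/
def S_NS : Prop := S_DQ → S_DEN

/-- SQ-BIL: bilinear sums of quadratic symbols. -/
def S_BIL : Prop := ∃ C : ℝ, 1 ≤ C ∧ ∀ (P Q : Finset ℕ) (A B z : ℕ) (c d : ℕ → ℂ),
  (∀ p ∈ P, p.Prime ∧ p % 4 = 1 ∧ p ≤ A) → (∀ q ∈ Q, q.Prime ∧ q ≠ 2 ∧ q ≤ B) →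
  Disjoint P Q → 1 ≤ z → z ≤ A → z ≤ B → (∀ p, ‖c p‖ ≤ 1) → (∀ q, ‖d q‖ ≤ 1) →
  ‖∑ p ∈ P, ∑ q ∈ Q, c p * d q * sg (nr p q)‖ ^ 12 * z ≤ C * ((A : ℝ) * B) ^ 12

/-- the labels of the large split primes with respect to the small ones are not degenerate -/
def Nd (S₀ S₁ : Finset ℕ) : Prop :=
  ∀ w : ℕ → ZMod 2, (∃ u ∈ S₀, mk u = 1 ∧ w u ≠ 0) →
    ∃ p ∈ S₁, mk p = 1 ∧ ∑ u ∈ S₀.filter (fun u => mk u = 1), w u * nr p u ≠ 0

/-- SQ-BOX: the count in a box. -/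
def S_BOX : Prop := S_EQ → S_LA → ∀ (f : ℕ → ZMod 2) (ι : Type) [Fintype ι] [LinearOrder ι]
  (J1 : Finset ι) (C : ι → Finset ℕ) (X : ι → ℕ) (κ : ℝ) (S₀ : Finset ℕ), 0 ≤ κ →
  (∀ i, (C i).card ≤ X i) → HB J1 C X κ → (∀ u ∈ S₀, (u.Prime ∧ u % 4 = 1) ∧ u ≠ 2) →
  (∀ i, ∀ p ∈ C i, (p.Prime ∧ p % 4 = 1) ∧ p ≠ 2 ∧ p ∉ S₀ ∧ (i ∈ J1 ↔ mk p = 1)) →
  (∀ i l, i ≠ l → Disjoint (C i) (C l)) → (∃ i, i ∉ J1) →
  |(((Fintype.piFinset C).filter fun p => Nd S₀ (univ.image p) ∧ Gd f (S₀ ∪ univ.image p)).card : ℝ) -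
      c2 * (((Fintype.piFinset C).filter fun p => Nd S₀ (univ.image p)).card : ℝ)| ≤
    2 * (4 ^ S₀.card / 2 ^ J1.card) *
      (((Fintype.piFinset C).filter fun p => Nd S₀ (univ.image p)).card : ℝ) +
    2 ^ ((2 * S₀.card + 1) * Fintype.card ι + (prs J1).card) * (κ * ∏ j, (X j : ℝ))

/-- the regular sets -/
noncomputable def RR (I K : Finset ℕ) (X z H k V : ℕ) : Finset (Finset ℕ) :=
  (SS I K X).filter fun S => Set.InjOn (jj H) (la z S : Set ℕ) ∧ S.card ≤ k ∧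
    (∏ p ∈ sm z S, p) * ∏ p ∈ la z S, XX H (jj H p) ≤ X ∧
    2 * (sm z S).card + V < ((la z S).filter fun p => mk p = 1).card ∧
    ∃ p ∈ la z S, mk p ≠ 1

/-- SQ-KEY: the sum over the boxes. -/
def S_KEY : Prop := S_BIL → S_EQ → S_LA → S_BOX → ∃ C : ℝ, 1 ≤ C ∧
  ∀ (I K : Finset ℕ) (f : ℕ → ZMod 2) (X z H k V N : ℕ) (κ : ℝ), Ok I K → 1 ≤ X → 1 ≤ H → 1 ≤ z →
  0 ≤ κ → C ≤ κ ^ 12 * z → (H : ℝ) * Real.log X < N →
  |(((RR I K X z H k V).filter fun S => Nd (sm z S) (la z S) ∧ Gd f S).card : ℝ) -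
      c2 * (((RR I K X z H k V).filter fun S => Nd (sm z S) (la z S)).card : ℝ)| ≤
    2 * (1 / 2 : ℝ) ^ V * ((RR I K X z H k V).card : ℝ) +
    (9 * N + 9 : ℝ) ^ k * (3 ^ (3 * k ^ 2) * κ) * (X * (1 + Real.log X))

/-- SQ-CNT: sets with many primes, sets near the boundary, sets with two primes in a block. -/
structure CntP : Prop where
  many : ∀ (I K : Finset ℕ) (X k : ℕ), Ok I K → 1 ≤ X →
    (((SS I K X).filter fun S => k < S.card).card : ℝ) * 2 ^ k ≤ X * (1 + Real.log X)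
  cut : ∀ (I K : Finset ℕ) (X z H k : ℕ), Ok I K → 1 ≤ X → 1 ≤ H →
    (((SS I K X).filter fun S => S.card ≤ k ∧
      X < (∏ p ∈ sm z S, p) * ∏ p ∈ la z S, XX H (jj H p)).card : ℝ) ≤ X * k / H + 1
  coll : ∀ (I K : Finset ℕ) (X z H : ℕ), Ok I K → 1 ≤ X → 1 ≤ H → (((SS I K X).filter fun S =>
    ¬ Set.InjOn (jj H) (la z S : Set ℕ)).card : ℝ) ≤ 4 * X * (1 + Real.log X) / H

/-- the sets of split primes on which the product of the primes in `W` is a square -/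
noncomputable def HD (W : Finset ℕ) (T : ℕ) : Finset (Finset ℕ) :=
  (range (T + 1)).powerset.filter fun S => (∀ p ∈ S, Sp p ∧ p ∉ W ∧ ∑ u ∈ W, nr p u = 0) ∧
    ∏ p ∈ S, p ≤ T

/-- SQ-HAL: the logarithmic density for a nontrivial quadratic character. -/
def S_HAL : Prop := ∃ C : ℝ, 1 ≤ C ∧ ∀ (W : Finset ℕ) (T : ℕ), W.Nonempty →
  (∀ u ∈ W, u.Prime ∧ u % 4 = 1) → 2 ≤ T →
  ∑ S ∈ HD W T, (1 : ℝ) / ((∏ p ∈ S, p : ℕ) : ℝ) ≤
    C * (Real.log ((∏ u ∈ W, u : ℕ) : ℝ)) ^ (1 / 2 : ℝ) * (Real.log T) ^ (1 / 8 : ℝ)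

/-- SQ-BAD: few sets have degenerate labels. -/
def S_BAD : Prop := S_SIE → S_HAL → S_MER → ∀ (I K : Finset ℕ), Ok I K →
  ∃ (C : ℝ) (X₀ : ℕ), ∀ X : ℕ, X₀ ≤ X →
  (((SS I K X).filter fun S => S.card ≤ kk X ∧ ¬ Nd (sm (zz X) S) (la (zz X) S)).card : ℝ) ≤
    C * X * (Real.log X) ^ (-1 + dl I - 1 / 32 : ℝ)

/-- SQ-FEW: few sets have few large split primes or no large inert prime. -/
def S_FEW : Prop := S_SIE → S_MER → ∀ (I K : Finset ℕ) (V : ℕ), Ok I K →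
  ∃ (C : ℝ) (X₀ : ℕ), ∀ X : ℕ, X₀ ≤ X →
  (((SS I K X).filter fun S => ((la (zz X) S).filter fun p => mk p = 1).card ≤
      2 * (sm (zz X) S).card + V ∨ ∀ p ∈ la (zz X) S, mk p = 1).card : ℝ) ≤
    C * X * (Real.log X) ^ (-1 + dl I - 1 / 32 : ℝ)

/-- SQ-LOW: the lower bound for the size of the class. -/
def S_LOW : Prop := S_MER → S_CHE → ∀ (I K : Finset ℕ), Ok I K →
  ∃ (c : ℝ) (X₀ : ℕ), 0 < c ∧ ∀ X : ℕ, X₀ ≤ X →
  c * X * (Real.log X) ^ (-1 + dl I : ℝ) ≤ ((SS I K X).card : ℝ)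

/-- a prime of the class -/
theorem pr1 {I : Finset ℕ} {p : ℕ} (h : Sp p ∨ In I p) : p.Prime ∧ p % 4 = 1 := by
  rcases h with h | h
  · exact ⟨h.1, h.2.2⟩
  · exact ⟨h.1, h.2.2⟩

theorem of_pr1 (I : Finset ℕ) {p : ℕ} (h : p.Prime) (h4 : p % 4 = 1) : Sp p ∨ In I p := by
  by_cases hm : mk p = 1
  · exact Or.inl ⟨h, hm, h4⟩
  · exact Or.inr ⟨h, hm, h4⟩

theorem mk_lt (p : ℕ) : mk p < 8 := by
  unfold mk
  split_ifs <;> norm_num

end Pool.Agent.R413.SQ
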